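import Mathlib

/-!
# Prime factors of a two variable polynomial through the point `(1,1)`
-/

open scoped BigOperators
open Polynomial

noncomputable section

namespace Pool.Agent.W_MP_78a2de_al_h82

theorem exists_prime_factor (φ : ℂ[X][X]) (h0 : evalEval 1 1 φ = 0) (θ : ℂ[X][X] →+* ℂ[X])
    (hθ : ∀ F, (θ F).eval 1 = evalEval 1 1 F) (hs : (derivative (θ φ)).eval 1 ≠ 0) :
    ∃ g h : ℂ[X][X], Prime g ∧ φ = g * h ∧ evalEval 1 1 g = 0 ∧ evalEval 1 1 h ≠ 0 := by
  have hne : φ ≠ 0 := by
    rintro rfl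
    simp at hs
  obtain ⟨f, hf, u, hu⟩ := UniqueFactorizationMonoid.exists_prime_factors φ hne
  have hprod : evalEvalRingHom (1:ℂ) 1 f.prod = 0 := by
    have h1 := congrArg (evalEvalRingHom (1:ℂ) 1) hu
    rw [map_mul] at h1
    have h2 : evalEvalRingHom (1:ℂ) 1 φ = 0 := h0
    rw [h2] at h1
    have h3 : evalEvalRingHom (1:ℂ) 1 (u : ℂ[X][X]) ≠ 0 := by
      have := (u.isUnit.map (evalEvalRingHom (1:ℂ) 1)).ne_zero
      exact this
    exact (mul_eq_zero.1 h1).resolve_right h3
  rw [map_multiset_prod, Multiset.prod_eq_zero_iff, Multiset.mem_map] at hprod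
  obtain ⟨g, hgf, hg0⟩ := hprod
  have hdvd : g ∣ φ := by
    rw [← hu]
    exact dvd_mul_of_dvd_left (Multiset.dvd_prod hgf) _
  obtain ⟨h, rfl⟩ := hdvd
  refine ⟨g, h, hf g hgf, rfl, hg0, ?_⟩
  intro hh
  apply hs
  have hg0' : evalEval 1 1 g = 0 := hg0
  rw [map_mul, derivative_mul, eval_add, eval_mul, eval_mul, hθ, hθ, hg0', hh]
  ring

theorem resultant_ne_zero_aux {K : Type*} [Field K] [Algebra ℂ[X] K] [IsFractionRing ℂ[X] K]
    (g φ₂ : ℂ[X][X]) (hg : Prime g) (hgd : ¬ g.natDegree = 0) (hndvd : ¬ g ∣ φ₂) :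
    resultant g φ₂ ≠ 0 := by
  intro h0
  have hinj : Function.Injective (algebraMap ℂ[X] K) := IsFractionRing.injective _ _
  have h1 : resultant (g.map (algebraMap ℂ[X] K)) (φ₂.map (algebraMap ℂ[X] K)) = 0 := by
    have := resultant_map_map g φ₂ g.natDegree φ₂.natDegree (algebraMap ℂ[X] K)
    rw [h0, map_zero] at this
    rw [natDegree_map_eq_of_injective hinj, natDegree_map_eq_of_injective hinj]
    exact this
  rw [resultant_eq_zero_iff] at h1
  have hprim : g.IsPrimitive := hg.irreducible.isPrimitive hgd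
  have hirr : Irreducible (g.map (algebraMap ℂ[X] K)) :=
    (hprim.irreducible_iff_irreducible_map_fraction_map).1 hg.irreducible
  apply h1.2
  refine (Irreducible.coprime_iff_not_dvd hirr).2 ?_
  intro hd
  exact hndvd (hprim.dvd_of_fraction_map_dvd_fraction_map hd)

/-- Bezout identity with degree bounds -/
theorem bezout_bound (g h φ₁ φ₂ : ℂ[X][X]) (w₁ w₂ : ℕ) (hg : Prime g) (hφ : φ₁ = g * h)
    (hg1 : evalEval 1 1 g = 0) (hφ₂ : evalEval 1 1 φ₂ = 0) (hndvd : ¬ g ∣ φ₂) (hφ1 : φ₁ ≠ 0)
    (hd₁ : φ₁.natDegree ≤ w₁) (hd₂ : φ₂.natDegree ≤ w₂) :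
    ∃ (p : ℂ[X]) (α β : ℂ[X][X]), p ≠ 0 ∧ C p * h = α * φ₁ + β * φ₂ ∧
      (∀ n, w₂ ≤ n → α.coeff n = 0) ∧ (∀ n, w₁ ≤ n → β.coeff n = 0) := by
  have hh : h ≠ 0 := by rintro rfl; exact hφ1 (by rw [hφ, mul_zero])
  have hg0 : g ≠ 0 := hg.ne_zero
  have hdeg : φ₁.natDegree = g.natDegree + h.natDegree := by
    rw [hφ, natDegree_mul hg0 hh]
  by_cases hgd : g.natDegree = 0
  · -- `g` is a polynomial in the first variable
    obtain ⟨c, hc⟩ := natDegree_eq_zero.1 hgd
    refine ⟨c, 1, 0, ?_, ?_, ?_, ?_⟩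
    · rintro rfl
      exact hg0 (by rw [← hc]; simp)
    · rw [hφ, ← hc]; ring
    · intro n hn
      have hw2 : w₂ ≠ 0 := by
        rintro rfl
        have hd0 : φ₂.natDegree = 0 := by omega
        obtain ⟨b, hb⟩ := natDegree_eq_zero.1 hd0
        apply hndvd
        have hc1 : c.eval 1 = 0 := by
          rw [← hc] at hg1
          simpa [evalEval] using hg1
        have hb1 : b.eval 1 = 0 := by
          rw [← hb] at hφ₂
          simpa [evalEval] using hφ₂
        -- `c` is prime
        have hcp : Prime c := by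
          rw [← hc] at hg
          exact (prime_C_iff).1 hg
        have hX : (X - C (1:ℂ)) ∣ c := dvd_iff_isRoot.2 hc1
        have hX2 : (X - C (1:ℂ)) ∣ b := dvd_iff_isRoot.2 hb1
        obtain ⟨c', hc'⟩ := hX
        have hir := hcp.irreducible
        have hun : IsUnit c' := by
          rcases hir.isUnit_or_isUnit hc' with h1 | h1
          · exact absurd h1 (irreducible_X_sub_C (1:ℂ)).not_isUnit
          · exact h1
        have hcX : c ∣ (X - C (1:ℂ)) := by
          rw [hc']
          exact (hun.mul_right_dvd).2 dvd_rfl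
        rw [← hc, ← hb]
        exact map_dvd C (hcX.trans hX2)
      rw [coeff_one, if_neg (by omega)]
    · intro n _; simp
  · -- positive degree: resultant
    obtain ⟨a, b, ha, hb, hab⟩ := exists_mul_add_mul_eq_C_resultant g φ₂ le_rfl le_rfl
      (Or.inl hgd)
    set p := resultant g φ₂ with hp
    have hp0 : p ≠ 0 := resultant_ne_zero_aux (K := FractionRing ℂ[X]) g φ₂ hg hgd hndvd
    refine ⟨p, a, b * h, hp0, ?_, ?_, ?_⟩
    · rw [hφ, ← hab]; ring
    · intro n hn
      apply coeff_eq_zero_of_degree_lt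
      refine ha.trans_le ?_
      exact_mod_cast hd₂.trans hn
    · intro n hn
      apply coeff_eq_zero_of_degree_lt
      rw [degree_mul, degree_eq_natDegree hh]
      have h1 : ((g.natDegree + h.natDegree : ℕ) : WithBot ℕ) ≤ n := by
        exact_mod_cast (by omega : g.natDegree + h.natDegree ≤ n)
      refine lt_of_lt_of_le ?_ h1
      push_cast
      by_cases hb0 : b = 0
      · rw [hb0, degree_zero]
        simp only [WithBot.bot_add]
        exact WithBot.bot_lt_coe _
      · rw [degree_eq_natDegree hb0] at hb ⊢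
        have : b.natDegree < g.natDegree := by exact_mod_cast hb
        exact_mod_cast (by omega : b.natDegree + h.natDegree < g.natDegree + h.natDegree)

/-- A prime curve through `(1,1)` has infinitely many points on the torus. -/
theorem infinite_zeros (g : ℂ[X][X]) (hg : Prime g) (hg1 : evalEval 1 1 g = 0) :
    {q : ℂ × ℂ | q.1 ≠ 0 ∧ q.2 ≠ 0 ∧ evalEval q.1 q.2 g = 0}.Infinite := by
  by_cases hgd : g.natDegree = 0
  · obtain ⟨c, hc⟩ := natDegree_eq_zero.1 hgd
    have hc1 : c.eval 1 = 0 := by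
      rw [← hc] at hg1
      simpa [evalEval] using hg1
    have hinj : Function.Injective (fun n : ℕ => ((1 : ℂ), ((n : ℂ) + 1))) := by
      intro a b hab
      simp only [Prod.mk.injEq, true_and, add_left_inj] at hab
      exact_mod_cast hab
    refine Set.infinite_of_injective_forall_mem hinj ?_
    intro n
    refine ⟨one_ne_zero, ?_, ?_⟩
    · show ((n : ℂ) + 1) ≠ 0
      exact_mod_cast Nat.succ_ne_zero n
    · show evalEval 1 ((n : ℂ) + 1) g = 0
      rw [← hc]
      simpa [evalEval] using hc1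
  · have hX : ¬ (X : ℂ[X][X]) ∣ g := by
      rintro ⟨k, hk⟩
      rcases hg.irreducible.isUnit_or_isUnit hk with h1 | h1
      · exact not_isUnit_X h1
      · rw [hk] at hg1
        have h2 : evalEval (1:ℂ) 1 (X * k) = evalEval 1 1 X * evalEval 1 1 k := by
          exact map_mul (evalEvalRingHom (1:ℂ) 1) X k
        rw [h2] at hg1
        have h3 : evalEval (1:ℂ) 1 k ≠ 0 := (h1.map (evalEvalRingHom (1:ℂ) 1)).ne_zero
        have h4 : evalEval (1:ℂ) 1 (X : ℂ[X][X]) = 1 := by simp [evalEval]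
        rw [h4, one_mul] at hg1
        exact h3 hg1
    have hc0 : g.coeff 0 ≠ 0 := fun h => hX (X_dvd_iff.2 h)
    have hlc : g.leadingCoeff ≠ 0 := by simpa using hg.ne_zero
    -- good values of the first variable
    set D : ℂ[X] := X * g.coeff 0 * g.leadingCoeff with hD
    have hD0 : D ≠ 0 := mul_ne_zero (mul_ne_zero X_ne_zero hc0) hlc
    have hfin : {u : ℂ | D.eval u = 0}.Finite := by
      have : {u : ℂ | D.eval u = 0} ⊆ (D.roots.toFinset : Set ℂ) := by
        intro u hu
        have hu' : D.eval u = 0 := hu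
        simp [hD0, hu', IsRoot]
      exact (Finset.finite_toSet _).subset this
    have hinf : {u : ℂ | D.eval u = 0}ᶜ.Infinite := hfin.infinite_compl
    have hex : ∀ u ∈ {u : ℂ | D.eval u = 0}ᶜ, ∃ v : ℂ, v ≠ 0 ∧ evalEval u v g = 0 := by
      intro u hu
      have hu' : D.eval u ≠ 0 := hu
      rw [hD, eval_mul, eval_mul, eval_X] at hu'
      have hlu : g.leadingCoeff.eval u ≠ 0 := right_ne_zero_of_mul hu'
      have hcu : (g.coeff 0).eval u ≠ 0 := right_ne_zero_of_mul (left_ne_zero_of_mul hu')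
      set gu : ℂ[X] := g.map (evalRingHom u) with hgu
      have hdeg : gu.natDegree = g.natDegree :=
        natDegree_map_of_leadingCoeff_ne_zero _ hlu
      have hdeg' : gu.degree ≠ 0 := by
        intro h
        have h5 : gu.natDegree = 0 := natDegree_eq_of_degree_eq_some h
        rw [hdeg] at h5
        exact hgd h5
      obtain ⟨v, hv⟩ := IsAlgClosed.exists_root gu hdeg'
      refine ⟨v, ?_, ?_⟩
      · rintro rfl
        rw [IsRoot, hgu, ← coeff_zero_eq_eval_zero, coeff_map] at hv
        exact hcu hv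
      · rw [IsRoot, hgu, eval_map, eval₂_evalRingHom] at hv
        exact hv
    choose! F hF0 hF using hex
    have hmap : Set.InjOn (fun u : ℂ => (u, F u)) {u : ℂ | D.eval u = 0}ᶜ := by
      intro a _ b _ hab
      exact congrArg Prod.fst hab
    have himg := hinf.image hmap
    refine himg.mono ?_
    rintro _ ⟨u, hu, rfl⟩
    refine ⟨?_, hF0 u hu, hF u hu⟩
    rintro rfl
    apply hu
    show D.eval 0 = 0
    simp [hD]

end Pool.Agent.W_MP_78a2de_al_h82
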