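import Mathlib

/-!
# Mahler measure of a determinant with polynomial entries (Hadamard bound)
-/

open scoped BigOperators
open Polynomial ComplexOrder

noncomputable section

namespace Pool.Agent.W_MP_78a2de_al_h82

/-- Hadamard inequality in exponential form. -/
theorem normSq_det_le_exp {n : Type*} [Fintype n] [DecidableEq n] (A : Matrix n n ℂ) :
    ‖A.det‖ ^ 2 ≤ Real.exp (∑ i, (∑ j, ‖A i j‖ ^ 2 - 1)) := by
  have hPS : (A * A.conjTranspose).PosSemidef := Matrix.posSemidef_self_mul_conjTranspose A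
  have hH := hPS.isHermitian
  have h1 : ((‖A.det‖ ^ 2 : ℝ) : ℂ) = ∏ i, (hH.eigenvalues i : ℂ) := by
    have := hH.det_eq_prod_eigenvalues
    rw [Matrix.det_mul, Matrix.det_conjTranspose] at this
    have h0 : ((‖A.det‖ ^ 2 : ℝ) : ℂ) = A.det * star A.det := by
      push_cast
      exact (Complex.mul_conj' _).symm
    rw [h0, this]
    rfl
  have h2 : (∑ i, hH.eigenvalues i : ℝ) = ∑ i, ∑ j, ‖A i j‖ ^ 2 := by
    have h := hH.trace_eq_sum_eigenvalues
    have h' : ((A * A.conjTranspose).trace : ℂ) = ((∑ i, ∑ j, ‖A i j‖ ^ 2 : ℝ) : ℂ) := by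
      simp only [Matrix.trace, Matrix.diag, Matrix.mul_apply, Matrix.conjTranspose_apply]
      push_cast
      apply Finset.sum_congr rfl
      intro i _
      apply Finset.sum_congr rfl
      intro j _
      rw [← Complex.mul_conj']
      rfl
    rw [h'] at h
    have h3 : ((∑ i, ∑ j, ‖A i j‖ ^ 2 : ℝ) : ℂ) = ((∑ i, hH.eigenvalues i : ℝ) : ℂ) := by
      rw [h]; push_cast; rfl
    exact_mod_cast h3.symm
  have h1' : ‖A.det‖ ^ 2 = ∏ i, hH.eigenvalues i := by
    have : ((‖A.det‖ ^ 2 : ℝ) : ℂ) = ((∏ i, hH.eigenvalues i : ℝ) : ℂ) := by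
      rw [h1]; push_cast; rfl
    exact_mod_cast this
  rw [h1', Finset.sum_sub_distrib, ← h2, ← Finset.sum_sub_distrib, Real.exp_sum]
  apply Finset.prod_le_prod
  · intro i _
    exact hPS.eigenvalues_nonneg i
  · intro i _
    have := Real.add_one_le_exp (hH.eigenvalues i - 1)
    linarith

/-- weighted version -/
theorem normSq_det_le_exp_weight {n : Type*} [Fintype n] [DecidableEq n] (A : Matrix n n ℂ)
    (c : n → ℝ) (hc : ∀ i, 0 < c i) :
    ‖A.det‖ ^ 2 ≤ (∏ i, c i) * Real.exp (∑ i, ((∑ j, ‖A i j‖ ^ 2) / c i - 1)) := by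
  have h := normSq_det_le_exp (Matrix.diagonal (fun i => ((Real.sqrt (c i))⁻¹ : ℂ)) * A)
  have hd : ‖(Matrix.diagonal (fun i => ((Real.sqrt (c i))⁻¹ : ℂ)) * A).det‖ ^ 2
      = (∏ i, c i)⁻¹ * ‖A.det‖ ^ 2 := by
    rw [Matrix.det_mul, Matrix.det_diagonal, norm_mul, mul_pow, norm_prod, ← Finset.prod_pow,
      ← Finset.prod_inv_distrib]
    congr 1
    apply Finset.prod_congr rfl
    intro i _
    rw [norm_inv, Complex.norm_real, Real.norm_of_nonneg (Real.sqrt_nonneg _), inv_pow,
      Real.sq_sqrt (hc i).le]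
  have hs : ∀ i, ∑ j, ‖(Matrix.diagonal (fun i => ((Real.sqrt (c i))⁻¹ : ℂ)) * A) i j‖ ^ 2
      = (∑ j, ‖A i j‖ ^ 2) / c i := by
    intro i
    rw [Finset.sum_div]
    apply Finset.sum_congr rfl
    intro j _
    rw [Matrix.diagonal_mul, norm_mul, mul_pow, norm_inv, Complex.norm_real,
      Real.norm_of_nonneg (Real.sqrt_nonneg _), inv_pow, Real.sq_sqrt (hc i).le]
    field_simp
  rw [hd] at h
  simp_rw [hs] at h
  have hpos : 0 < ∏ i, c i := Finset.prod_pos (fun i _ => hc i)
  rw [inv_mul_le_iff₀ hpos] at h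
  exact h

/-- coefficient energy of a row -/
def rowE {n : Type*} [Fintype n] (r : n → ℂ[X]) : ℝ :=
  ∑ j, ∑ i ∈ (r j).support, ‖(r j).coeff i‖ ^ 2

theorem rowE_nonneg {n : Type*} [Fintype n] (r : n → ℂ[X]) : 0 ≤ rowE r :=
  Finset.sum_nonneg fun _ _ => Finset.sum_nonneg fun _ _ => by positivity

theorem rowE_pos {n : Type*} [Fintype n] (r : n → ℂ[X]) (h : r ≠ 0) : 0 < rowE r := by
  obtain ⟨j, hj⟩ : ∃ j, r j ≠ 0 := by
    by_contra hc
    push Not at hc
    exact h (funext hc)
  apply Finset.sum_pos' (fun _ _ => Finset.sum_nonneg fun _ _ => by positivity)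
  refine ⟨j, Finset.mem_univ _, ?_⟩
  apply Finset.sum_pos' (fun _ _ => by positivity)
  refine ⟨(r j).natDegree, by simpa using hj, ?_⟩
  have : (r j).coeff (r j).natDegree ≠ 0 := by simpa using hj
  positivity

theorem circleAverage_row {n : Type*} [Fintype n] (r : n → ℂ[X]) :
    Real.circleAverage (fun z => ∑ j, ‖(r j).eval z‖ ^ 2) 0 1 = rowE r := by
  unfold rowE
  rw [Real.circleAverage_fun_sum]
  · apply Finset.sum_congr rfl
    intro j _
    rw [(r j).sum_sq_norm_coeff_eq_circleAverage]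
  · intro j _
    apply ContinuousOn.circleIntegrable'
    apply Continuous.continuousOn
    fun_prop

theorem circleIntegrable_row {n : Type*} [Fintype n] (r : n → ℂ[X]) (a b : ℝ) :
    CircleIntegrable (fun z => a + (∑ j, ‖(r j).eval z‖ ^ 2) * b) 0 1 := by
  apply ContinuousOn.circleIntegrable'
  apply Continuous.continuousOn
  fun_prop

/-- Mahler measure of a determinant. -/
theorem logMahler_det_le {n : Type*} [Fintype n] [DecidableEq n] (R : Matrix n n ℂ[X])
    (hne : R.det ≠ 0) :
    R.det.logMahlerMeasure ≤ ∑ i, (1 / 2) * Real.log (rowE (R i)) := by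
  have hrow : ∀ i, 0 < rowE (R i) := by
    intro i
    apply rowE_pos
    intro h
    exact hne (Matrix.det_eq_zero_of_row_eq_zero i (fun j => by rw [h]; rfl))
  set p := R.det with hp
  have hev : ∀ z, p.eval z = (R.map (fun q => q.eval z)).det := by
    intro z
    rw [hp]
    exact RingHom.map_det (evalRingHom z) R
  set f₂ : ℂ → ℝ := fun z => ∑ i, (((1 / 2) * Real.log (rowE (R i)) - 1 / 2) +
    (∑ j, ‖(R i j).eval z‖ ^ 2) * (1 / (2 * rowE (R i)))) with hf₂
  classical
  set f₁ : ℂ → ℝ := fun z => if p.eval z = 0 then f₂ z else Real.log ‖p.eval z‖ with hf₁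
  have hcong : f₁ =ᶠ[Filter.codiscreteWithin (Metric.sphere (0:ℂ) |1|)]
      fun z => Real.log ‖p.eval z‖ := by
    have hfin : ({z : ℂ | p.eval z = 0} : Set ℂ).Finite := by
      have : {z : ℂ | p.eval z = 0} ⊆ (p.roots.toFinset : Set ℂ) := by
        intro z hz
        have hz' : p.eval z = 0 := hz
        simp [hne, hz', IsRoot]
      exact (Finset.finite_toSet _).subset this
    have hm := compl_finite_mem_codiscreteWithin (t := {z : ℂ | p.eval z = 0})
      (s := Metric.sphere (0:ℂ) |1|) hfin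
    filter_upwards [hm] with z hz
    have hz' : ¬ p.eval z = 0 := hz
    simp [hf₁, hz']
  have hint₁ : CircleIntegrable (fun z => Real.log ‖p.eval z‖) 0 1 := by
    rw [circleIntegrable_def]
    exact p.intervalIntegrable_mahlerMeasure
  have hint₁' : CircleIntegrable f₁ 0 1 := (circleIntegrable_congr_codiscreteWithin hcong).2 hint₁
  have hint₂ : CircleIntegrable f₂ 0 1 := by
    rw [hf₂]
    apply CircleIntegrable.fun_sum
    intro i _
    exact circleIntegrable_row _ _ _
  have hle : ∀ z, f₁ z ≤ f₂ z := by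
    intro z
    by_cases hz : p.eval z = 0
    · simp [hf₁, hz]
    · simp only [hf₁, hz, if_false]
      have h := normSq_det_le_exp_weight (R.map (fun q => q.eval z)) (fun i => rowE (R i)) hrow
      rw [← hev z] at h
      have hpos : 0 < ‖p.eval z‖ := by simpa using hz
      have hl := Real.log_le_log (by positivity) h
      have hprod : 0 < ∏ i, rowE (R i) := Finset.prod_pos (fun i _ => hrow i)
      rw [Real.log_pow, Real.log_mul hprod.ne' (Real.exp_pos _).ne', Real.log_exp,
        Real.log_prod (fun i _ => (hrow i).ne')] at hl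
      simp only [Matrix.map_apply] at hl
      push_cast at hl
      have : f₂ z = (1 / 2) * (∑ i, Real.log (rowE (R i)) +
          ∑ i, ((∑ j, ‖(R i j).eval z‖ ^ 2) / rowE (R i) - 1)) := by
        rw [hf₂, ← Finset.sum_add_distrib, Finset.mul_sum]
        apply Finset.sum_congr rfl
        intro i _
        have := (hrow i).ne'
        field_simp
        ring
      rw [this]
      linarith
  unfold logMahlerMeasure
  rw [← Real.circleAverage_congr_codiscreteWithin hcong one_ne_zero]
  refine (Real.circleAverage_mono hint₁' hint₂ (fun z _ => hle z)).trans ?_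
  have hsum : Real.circleAverage f₂ 0 1 = ∑ i, Real.circleAverage (fun z =>
      (((1 / 2) * Real.log (rowE (R i)) - 1 / 2) +
    (∑ j, ‖(R i j).eval z‖ ^ 2) * (1 / (2 * rowE (R i))))) 0 1 :=
    Real.circleAverage_fun_sum (fun i _ => circleIntegrable_row _ _ _)
  rw [hsum]
  apply le_of_eq
  apply Finset.sum_congr rfl
  intro i _
  have e1 : Real.circleAverage (fun z => (((1 / 2) * Real.log (rowE (R i)) - 1 / 2) +
    (∑ j, ‖(R i j).eval z‖ ^ 2) * (1 / (2 * rowE (R i))))) 0 1
     = ((1 / 2) * Real.log (rowE (R i)) - 1 / 2) + rowE (R i) * (1 / (2 * rowE (R i))) := by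
    rw [Real.circleAverage_fun_add (circleIntegrable_const _ _ _)]
    · rw [Real.circleAverage_const]
      congr 1
      have := Real.circleAverage_fun_smul (a := 1 / (2 * rowE (R i)))
        (f := fun z => (∑ j, ‖(R i j).eval z‖ ^ 2)) (c := 0) (R := 1)
      rw [circleAverage_row] at this
      simp only [smul_eq_mul] at this
      rw [mul_comm (rowE (R i)), ← this]
      congr 1
      funext z
      ring
    · have := circleIntegrable_row (R i) 0 (1 / (2 * rowE (R i)))
      simpa using this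
  rw [e1]
  have := (hrow i).ne'
  field_simp
  ring

/-- A root of a nonzero integral determinant is small. -/
theorem root_det_le {n : Type*} [Fintype n] [DecidableEq n] (R : Matrix n n ℤ[X])
    (hne : R.det ≠ 0) (z : ℂ) (hz : aeval z R.det = 0) :
    ‖z‖ ^ 2 ≤ ∏ i, rowE (fun j => (R i j).map (Int.castRingHom ℂ)) := by
  set Rc : Matrix n n ℂ[X] := R.map (fun q => q.map (Int.castRingHom ℂ)) with hRc
  have hdet : Rc.det = R.det.map (Int.castRingHom ℂ) := by
    have := RingHom.map_det (Polynomial.mapRingHom (Int.castRingHom ℂ)) R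
    rw [Polynomial.coe_mapRingHom] at this
    rw [this]; rfl
  have hinj : Function.Injective (Int.castRingHom ℂ) := Int.cast_injective
  have hne' : Rc.det ≠ 0 := by
    rw [hdet]
    exact (Polynomial.map_ne_zero_iff hinj).2 hne
  have hroot : Rc.det.IsRoot z := by
    rw [IsRoot, hdet, eval_map]
    exact hz
  have hlc : 1 ≤ ‖Rc.det.leadingCoeff‖ := by
    rw [hdet, leadingCoeff_map_of_injective hinj]
    simp only [eq_intCast]
    have : R.det.leadingCoeff ≠ 0 := by simpa using hne
    rw [Complex.norm_intCast]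
    exact_mod_cast Int.one_le_abs this
  have h1 : ‖z‖ ≤ Rc.det.mahlerMeasure := by
    refine le_trans ?_ (prod_max_one_norm_roots_le_mahlerMeasure_of_one_le_leadingCoeff hlc)
    have hmem : z ∈ Rc.det.roots := by
      rw [mem_roots hne']; exact hroot
    obtain ⟨t, ht⟩ := Multiset.exists_cons_of_mem hmem
    rw [ht, Multiset.map_cons, Multiset.prod_cons]
    have h2 : 1 ≤ (t.map (fun a => max 1 ‖a‖)).prod := by
      apply Multiset.one_le_prod
      intro x hx
      obtain ⟨a, _, rfl⟩ := Multiset.mem_map.1 hx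
      exact le_max_left _ _
    calc ‖z‖ ≤ max 1 ‖z‖ := le_max_right _ _
      _ = max 1 ‖z‖ * 1 := by ring
      _ ≤ _ := by gcongr
  have hM : 0 < Rc.det.mahlerMeasure := mahlerMeasure_pos_of_ne_zero hne'
  have h3 := logMahler_det_le Rc hne'
  rw [logMahlerMeasure_eq_log_MahlerMeasure] at h3
  have hrow : ∀ i, 0 < rowE (Rc i) := by
    intro i
    apply rowE_pos
    intro h
    exact hne' (Matrix.det_eq_zero_of_row_eq_zero i (fun j => by rw [h]; rfl))
  have h4 : Rc.det.mahlerMeasure ^ 2 ≤ ∏ i, rowE (Rc i) := by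
    have hprod : 0 < ∏ i, rowE (Rc i) := Finset.prod_pos (fun i _ => hrow i)
    rw [← Real.log_le_log_iff (by positivity) hprod, Real.log_pow,
      Real.log_prod (fun i _ => (hrow i).ne')]
    rw [← Finset.mul_sum] at h3
    push_cast
    linarith
  calc ‖z‖ ^ 2 ≤ Rc.det.mahlerMeasure ^ 2 := by gcongr
    _ ≤ _ := h4

end Pool.Agent.W_MP_78a2de_al_h82
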