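import Mathlib

/-!
# A nonzero maximal minor which vanishes at a point
-/

open scoped BigOperators
open Polynomial

noncomputable section

namespace Pool.Agent.W_MP_78a2de_al_h82

/-- Bordering a maximal minor. -/
theorem border {A : Type*} [CommRing A] {I C : Type*} (R : I → C → A) (s : ℕ)
    (f : Fin s → I) (g : Fin s → C)
    (hmax : ∀ (f' : Fin (s + 1) → I) (g' : Fin (s + 1) → C),
      (Matrix.of fun i j => R (f' i) (g' j)).det = 0) (i : I) :
    ∃ D : Fin s → A, ∀ c, (Matrix.of fun i j => R (f i) (g j)).det * R i c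
      = ∑ r, D r * R (f r) c := by
  -- bordered matrix, rows `f, i`, columns `g, c`
  set f' : Fin (s + 1) → I := Fin.snoc (α := fun _ => I) f i with hf'
  set D : Fin s → A := fun r => -((-1) ^ ((r : ℕ) + s) *
    (Matrix.of fun (a b : Fin s) => R (f' (r.castSucc.succAbove a)) (g b)).det) with hD
  refine ⟨D, fun c => ?_⟩
  set g' : Fin (s + 1) → C := Fin.snoc (α := fun _ => C) g c with hg'
  have h0 := hmax f' g'
  rw [Matrix.det_succ_column _ (Fin.last s), Fin.sum_univ_castSucc] at h0
  have hlast : ((-1 : A)) ^ (((Fin.last s : Fin (s+1)) : ℕ) + ((Fin.last s : Fin (s+1)) : ℕ)) = 1 := by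
    rw [← two_mul, pow_mul]; simp
  have hg1 : ∀ b : Fin s, g' ((Fin.last s).succAbove b) = g b := by
    intro b
    rw [Fin.succAbove_last]
    simp [hg']
  have hf1 : ∀ b : Fin s, f' ((Fin.last s).succAbove b) = f b := by
    intro b
    rw [Fin.succAbove_last]
    simp [hf']
  have hgl : g' (Fin.last s) = c := by simp [hg']
  have hfl : f' (Fin.last s) = i := by simp [hf']
  have hfc : ∀ r : Fin s, f' r.castSucc = f r := by intro r; simp [hf']
  rw [hlast, one_mul] at h0
  simp only [Matrix.of_apply, hgl, hfl, hfc] at h0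
  have e1 : (Matrix.of fun i j => R (f' i) (g' j)).submatrix (Fin.last s).succAbove
      (Fin.last s).succAbove = Matrix.of fun i j => R (f i) (g j) := by
    ext a b
    rw [Matrix.submatrix_apply, Matrix.of_apply, Matrix.of_apply, hg1, hf1]
  have e2 : ∀ r : Fin s, (Matrix.of fun i j => R (f' i) (g' j)).submatrix r.castSucc.succAbove
      (Fin.last s).succAbove = Matrix.of fun (a b : Fin s) => R (f' (r.castSucc.succAbove a)) (g b) := by
    intro r
    ext a b
    rw [Matrix.submatrix_apply, Matrix.of_apply, Matrix.of_apply, hg1]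
  rw [e1] at h0
  simp only [e2] at h0
  have h1 : (Matrix.of fun i j => R (f i) (g j)).det * R i c =
      - ∑ r : Fin s, (-1 : A) ^ (((r.castSucc : Fin (s+1)) : ℕ) + ((Fin.last s : Fin (s+1)) : ℕ)) *
      R (f r) c * (Matrix.of fun (a b : Fin s) => R (f' (r.castSucc.succAbove a)) (g b)).det := by
    linear_combination h0
  rw [h1, ← Finset.sum_neg_distrib]
  apply Finset.sum_congr rfl
  intro r _
  simp only [hD, Fin.val_castSucc, Fin.val_last]
  ring

/-- existence of a maximal nonzero minor -/
theorem exists_max_minor {A : Type*} [CommRing A] [Nontrivial A] {I C : Type*} [Fintype I]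
    (R : I → C → A) :
    ∃ (s : ℕ) (f : Fin s → I) (g : Fin s → C), (Matrix.of fun i j => R (f i) (g j)).det ≠ 0 ∧
      ∀ (f' : Fin (s + 1) → I) (g' : Fin (s + 1) → C),
      (Matrix.of fun i j => R (f' i) (g' j)).det = 0 := by
  classical
  let Pr : ℕ → Prop := fun s => ∃ (f : Fin s → I) (g : Fin s → C),
    (Matrix.of fun i j => R (f i) (g j)).det ≠ 0
  have h0 : Pr 0 := ⟨Fin.elim0, Fin.elim0, by simp⟩
  have hb : ∀ s, Pr s → s ≤ Fintype.card I := by
    rintro s ⟨f, g, h⟩
    have hf : Function.Injective f := by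
      intro a b hab
      by_contra hne
      apply h
      apply Matrix.det_zero_of_row_eq hne
      funext j
      simp [Matrix.of_apply, hab]
    simpa using Fintype.card_le_of_injective f hf
  have hs := Nat.findGreatest_spec (P := Pr) (Nat.zero_le (Fintype.card I)) h0
  obtain ⟨f, g, h⟩ := hs
  refine ⟨_, f, g, h, ?_⟩
  intro f' g'
  by_contra hne
  have : Pr (Nat.findGreatest Pr (Fintype.card I) + 1) := ⟨f', g', hne⟩
  have h2 := Nat.le_findGreatest (hb _ this) this
  omega

/-- The key linear algebra lemma. -/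
theorem exists_minor_root {I C : Type*} [Fintype I] [Fintype C]
    (R : I → C → ℤ[X]) (x : ℂ) (v : C → ℂ) (hv : ∀ i, ∑ c, aeval x (R i c) * v c = 0)
    (e : C → ℂ[X]) (p : ℂ[X]) (hp : p ≠ 0) (a : I → ℂ[X])
    (hpe : ∀ c, p * e c = ∑ i, a i * (R i c).map (Int.castRingHom ℂ))
    (he : ∑ c, (e c).eval x * v c ≠ 0) :
    ∃ (s : ℕ) (f : Fin s → I) (g : Fin s → C), (Matrix.of fun i j => R (f i) (g j)).det ≠ 0 ∧
      aeval x (Matrix.of fun i j => R (f i) (g j)).det = 0 := by
  classical
  obtain ⟨s, f, g, hm, hmax⟩ := exists_max_minor R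
  refine ⟨s, f, g, hm, ?_⟩
  choose D hD using border R s f g hmax
  set κ := Polynomial.mapRingHom (Int.castRingHom ℂ) with hκ
  have hκinj : Function.Injective κ := Polynomial.map_injective _ Int.cast_injective
  have hκap : ∀ q : ℤ[X], κ q = q.map (Int.castRingHom ℂ) := fun q => rfl
  set m := (Matrix.of fun i j => R (f i) (g j)).det with hmdef
  have hm' : κ m ≠ 0 := by
    rw [Ne, map_eq_zero_iff κ hκinj]; exact hm
  simp only [← hκap] at hpe
  set b : Fin s → ℂ[X] := fun r => ∑ i, a i * κ (D i r) with hb
  have h1 : ∀ c, κ m * (p * e c) = ∑ r, b r * κ (R (f r) c) := by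
    intro c
    rw [hpe, Finset.mul_sum]
    simp only [hb, Finset.sum_mul]
    rw [Finset.sum_comm]
    apply Finset.sum_congr rfl
    intro i _
    have := congrArg κ (hD i c)
    rw [map_mul, map_sum] at this
    simp only [map_mul] at this
    calc κ m * (a i * κ (R i c)) = a i * (κ m * κ (R i c)) := by ring
      _ = a i * ∑ r, κ (D i r) * κ (R (f r) c) := by rw [this]
      _ = _ := by
        rw [Finset.mul_sum]
        apply Finset.sum_congr rfl
        intro r _
        ring
  set G : Matrix (Fin s) (Fin s) ℂ[X] := Matrix.of fun i j => κ (R (f i) (g j)) with hG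
  have hGdet : G.det = κ m := by
    rw [hmdef, RingHom.map_det]; rfl
  set cc : Fin s → ℂ[X] := fun r => ∑ j, e (g j) * G.adjugate j r with hcc
  have h2 : ∀ r, b r = p * cc r := by
    intro r
    have hadj : ∀ r', ∑ j, G r' j * G.adjugate j r = if r' = r then κ m else 0 := by
      intro r'
      have := congrFun (congrFun (Matrix.mul_adjugate G) r') r
      rw [Matrix.mul_apply, hGdet] at this
      rw [this]
      simp [Matrix.one_apply]
    have h3 : ∑ j, (κ m * (p * e (g j))) * G.adjugate j r = κ m * b r := by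
      simp only [h1, Finset.sum_mul]
      rw [Finset.sum_comm]
      have : ∀ r', ∑ j, b r' * κ (R (f r') (g j)) * G.adjugate j r
          = b r' * (if r' = r then κ m else 0) := by
        intro r'
        rw [← hadj r', Finset.mul_sum]
        apply Finset.sum_congr rfl
        intro j _
        simp [hG, mul_assoc]
      simp only [this]
      simp [mul_comm]
    apply mul_left_cancel₀ hm'
    rw [← h3, hcc, Finset.mul_sum, Finset.mul_sum]
    apply Finset.sum_congr rfl
    intro j _
    ring
  have h4 : ∀ c, κ m * e c = ∑ r, cc r * κ (R (f r) c) := by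
    intro c
    apply mul_left_cancel₀ hp
    rw [Finset.mul_sum]
    calc p * (κ m * e c) = κ m * (p * e c) := by ring
      _ = ∑ r, b r * κ (R (f r) c) := h1 c
      _ = _ := by
        apply Finset.sum_congr rfl
        intro r _
        rw [h2 r]; ring
  have hev : ∀ q : ℤ[X], (κ q).eval x = aeval x q := by
    intro q
    rw [hκap, eval_map]
    rfl
  have h5 : (κ m).eval x * ∑ c, (e c).eval x * v c = 0 := by
    rw [Finset.mul_sum]
    have : ∀ c, (κ m).eval x * ((e c).eval x * v c) =
        ∑ r, (cc r).eval x * (aeval x (R (f r) c) * v c) := by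
      intro c
      have := congrArg (fun q => q.eval x * v c) (h4 c)
      simp only [eval_mul, eval_finsetSum, hev] at this
      rw [hev, ← mul_assoc, this, Finset.sum_mul]
      apply Finset.sum_congr rfl
      intro r _
      ring
    simp only [this]
    rw [Finset.sum_comm]
    apply Finset.sum_eq_zero
    intro r _
    rw [← Finset.mul_sum, hv, mul_zero]
  rw [← hev]
  exact (mul_eq_zero.1 h5).resolve_right he

end Pool.Agent.W_MP_78a2de_al_h82
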